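import Pool.Agent.U213.TB.Prime
import Pool.Agent.U738.BN.Fam

/-!
# The assertion TB for `X × 𝔾_m` and for schemes of dimension at most one
-/

set_option autoImplicit false

open CategoryTheory AlgebraicGeometry Pool.Agent.Y116.UV Pool.Agent.Z125.UN Pool.Agent.U213.TB
  Pool.Agent.U738.BN

universe u v

namespace Pool.Agent.U738.TB

variable {k : Type} [Field k] {q : ℕ} {Λ : Type u} [Field Λ] [CharZero Λ]
  {T : Homology.{u, v} k q Λ} {C : Sch k → Prop}

/-- TB for the affine schemes of dimension at most one -/
lemma tb_dim_one (hq : 1 < q) (hC : IsProjClass T C) (A : Type) [CommRing A] [Algebra k A]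
    [Algebra.FiniteType k A] (hA : ringKrullDim A ≤ 1) : T.TB (aff k A) := by
  refine (pr_iff T hq hC 1).1 (fun X hX hd => hC.curves X hX hd) _ (ft_aff True) ?_
  rw [topDim_aff]
  exact hA

lemma dim_fin (A : Type) [CommRing A] [Algebra k A] [Module.Finite k A] : ringKrullDim A ≤ 1 := by
  refine (dim_finite_le (R := k) A).trans ?_
  rw [ringKrullDim_eq_zero_of_field]
  exact zero_le_one

/-- TB has the closure properties which are used for two-term equations. -/
theorem posD_tb (hq : 1 < q) (hC : IsProjClass T C) : PosD True T.TB 1 where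
  iso := (bnd T hq).iso
  total := (bnd T hq).total
  times A _ _ _ h := (pos_of_bnd (bnd T hq) fun B _ _ _ => tb_dim_one hq hC B
    (dim_fin (k := k) B)).times A h
  dim A _ _ _ hA := tb_dim_one hq hC A hA

end Pool.Agent.U738.TB
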